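import Pool.Agent.Helper533.Fdf.Chk

set_option autoImplicit false
set_option maxRecDepth 100000
open Finset

namespace Pool.Agent.Helper533.Fdf

theorem nsum_eq (n : ℕ) (f : ℕ → ℕ) : nsum n f = ∑ k ∈ range n, f k := by
  induction n with
  | zero => rfl
  | succ n ih => rw [sum_range_succ, ← ih]; rfl

theorem nall_true {n : ℕ} {f : ℕ → Bool} (h : nall n f = true) : ∀ k < n, f k = true := by
  induction n with
  | zero => intro k hk; omega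
  | succ n ih =>
    have h' : (nall n f && f n) = true := h
    rw [Bool.and_eq_true] at h'
    intro k hk
    rcases Nat.lt_succ_iff_lt_or_eq.mp hk with hk | rfl
    · exact ih h'.1 k hk
    · exact h'.2

/-- compatible pairs of relation codes `(rel x y, rel y x)` -/
def Pr (d e : ℕ) : Prop := (d = 0 ∧ e = 0) ∨ (d = 1 ∧ e = 2) ∨ (d = 2 ∧ e = 1)

theorem A3_true {f : ℕ → ℕ → Bool} (h : A3 f = true) {d e : ℕ} (hd : Pr d e) : f d e = true := by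
  have h' : (f 0 0 && (f 1 2 && f 2 1)) = true := h
  simp only [Bool.and_eq_true] at h'
  rcases hd with ⟨rfl, rfl⟩ | ⟨rfl, rfl⟩ | ⟨rfl, rfl⟩
  exacts [h'.1, h'.2.1, h'.2.2]

theorem leaf_le (d01 e01 d02 e02 d03 e03 d04 e04 d12 e12 d13 e13 d14 e14 d23 e23 d24 e24 d34 e34 : ℕ) (h01 : Pr d01 e01) (h02 : Pr d02 e02) (h03 : Pr d03 e03) (h04 : Pr d04 e04) (h12 : Pr d12 e12) (h13 : Pr d13 e13) (h14 : Pr d14 e14) (h23 : Pr d23 e23) (h24 : Pr d24 e24) (h34 : Pr d34 e34)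
    (hz : cyc d01 e01 d02 e02 d03 e03 d04 e04 d12 e12 d13 e13 d14 e14 d23 e23 d24 e24 d34 e34 = 0) :
    leaf d01 e01 d02 e02 d03 e03 d04 e04 d12 e12 d13 e13 d14 e14 d23 e23 d24 e24 d34 e34 ≤ 613894715537846 := by
  have hc : chk d01 e01 d02 e02 = true := by
    rcases h01 with ⟨rfl, rfl⟩ | ⟨rfl, rfl⟩ | ⟨rfl, rfl⟩ <;>
    rcases h02 with ⟨rfl, rfl⟩ | ⟨rfl, rfl⟩ | ⟨rfl, rfl⟩
    exacts [ck0, ck1, ck2, ck3, ck4, ck5, ck6, ck7, ck8]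
  have h := (A3_true (A3_true (A3_true (A3_true (A3_true (A3_true (A3_true (A3_true hc h03) h04) h12) h13) h14) h23) h24) h34)
  rcases (Bool.or_eq_true _ _).mp h with h | h
  · have := Nat.le_of_ble_eq_true h
    omega
  · exact Nat.le_of_ble_eq_true h

theorem g3_all (c i j : ℕ) (hc : c < 27) (hi : i < 27) (hj : j < 27) : g3 c i j = true := by
  have h : chk3 c = true := by
    interval_cases c
    exacts [cg3_0, cg3_1, cg3_2, cg3_3, cg3_4, cg3_5, cg3_6, cg3_7, cg3_8, cg3_9, cg3_10, cg3_11, cg3_12, cg3_13, cg3_14, cg3_15, cg3_16, cg3_17, cg3_18, cg3_19, cg3_20, cg3_21, cg3_22, cg3_23, cg3_24, cg3_25, cg3_26]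
  exact nall_true (nall_true h i hi) j hj

theorem g1_all (i j : ℕ) (hi : i < 27) (hj : j < 27) : g1 i j = true :=
  nall_true (nall_true cg1 i hi) j hj

theorem expand (s : Finset ℕ) (u v : ℕ → ℕ) (B : ℤ) :
    ∑ k ∈ s, ((u k : ℤ) - B) * ((v k : ℤ) - B) =
      ∑ k ∈ s, (u k : ℤ) * (v k : ℤ) - B * ∑ k ∈ s, ((u k : ℤ) + (v k : ℤ)) + s.card * B ^ 2 := by
  rw [mul_sum, ← sum_sub_distrib]
  have : (s.card : ℤ) * B ^ 2 = ∑ k ∈ s, B ^ 2 := by simp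
  rw [this, ← sum_add_distrib]
  exact sum_congr rfl fun k _ => by ring

theorem q3_eq (c i j : ℕ) (hc : c < 27) (hi : i < 27) (hj : j < 27) :
    (q3 c i j : ℤ) = ∑ k ∈ range 27, ((l3 c i k : ℤ) - 2097152) * ((l3 c j k : ℤ) - 2097152)
      + 8796093022208 - 412316860416 * (pc c : ℤ) := by
  have h := Nat.eq_of_beq_eq_true (g3_all c i j hc hi hj)
  rw [nsum_eq, nsum_eq] at h
  have h2 : ((∑ k ∈ range 27, (l3 c i k * l3 c j k) + 127543348822016 : ℕ) : ℤ)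
      = ((q3 c i j + 412316860416 * pc c + 2097152 * ∑ k ∈ range 27, (l3 c i k + l3 c j k) : ℕ) : ℤ) := congrArg _ h
  push_cast at h2
  rw [expand (range 27) (fun k => l3 c i k) (fun k => l3 c j k) 2097152, card_range]
  push_cast
  linarith

theorem q1_eq (i j : ℕ) (hi : i < 27) (hj : j < 27) :
    (q1 i j : ℤ) = ∑ k ∈ range 15, ((l1 i k : ℤ) - 2097152) * ((l1 j k : ℤ) - 2097152) + 8796093022208 := by
  have h := Nat.eq_of_beq_eq_true (g1_all i j hi hj)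
  rw [nsum_eq, nsum_eq] at h
  have h2 : ((∑ k ∈ range 15, (l1 i k * l1 j k) + 74766790688768 : ℕ) : ℤ)
      = ((q1 i j + 2097152 * ∑ k ∈ range 15, (l1 i k + l1 j k) : ℕ) : ℤ) := congrArg _ h
  push_cast at h2
  rw [expand (range 15) (fun k => l1 i k) (fun k => l1 j k) 2097152, card_range]
  push_cast
  linarith

variable {V : Type} (rel : V → V → ℕ)

def F3 (a b c d e : V) : ℕ :=
  q3 (cd (rel a b) (rel a c) (rel b c)) (cd (rel a d) (rel b d) (rel c d))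
    (cd (rel a e) (rel b e) (rel c e))
def F1 (a b c d e : V) : ℕ :=
  q1 (cd (rel a b) (rel a c) (rel b c)) (cd (rel a d) (rel a e) (rel d e))
/-- no induced oriented 4-cycle, in terms of codes -/
def NoC4 : Prop := ∀ a b c d : V,
  c4 (rel a b) (rel a c) (rel a d) (rel b c) (rel b d) (rel c d) = 0

theorem pointwise (h : ∀ x y, Pr (rel x y) (rel y x)) (hz : NoC4 rel) (x : Fin 5 → V) :
    ((F3 rel (x 0) (x 1) (x 2) (x 3) (x 4) +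
      (F3 rel (x 0) (x 1) (x 3) (x 2) (x 4) +
      (F3 rel (x 0) (x 1) (x 4) (x 2) (x 3) +
      (F3 rel (x 0) (x 2) (x 3) (x 1) (x 4) +
      (F3 rel (x 0) (x 2) (x 4) (x 1) (x 3) +
      (F3 rel (x 0) (x 3) (x 4) (x 1) (x 2) +
      (F3 rel (x 1) (x 2) (x 3) (x 0) (x 4) +
      (F3 rel (x 1) (x 2) (x 4) (x 0) (x 3) +
      (F3 rel (x 1) (x 3) (x 4) (x 0) (x 2) +
      F3 rel (x 2) (x 3) (x 4) (x 0) (x 1))))))))))) + 4 * ((F1 rel (x 0) (x 1) (x 2) (x 3) (x 4) +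
      (F1 rel (x 0) (x 1) (x 3) (x 2) (x 4) +
      (F1 rel (x 0) (x 1) (x 4) (x 2) (x 3) +
      (F1 rel (x 1) (x 0) (x 2) (x 3) (x 4) +
      (F1 rel (x 1) (x 0) (x 3) (x 2) (x 4) +
      (F1 rel (x 1) (x 0) (x 4) (x 2) (x 3) +
      (F1 rel (x 2) (x 0) (x 1) (x 3) (x 4) +
      (F1 rel (x 2) (x 0) (x 3) (x 1) (x 4) +
      (F1 rel (x 2) (x 0) (x 4) (x 1) (x 3) +
      (F1 rel (x 3) (x 0) (x 1) (x 2) (x 4) +
      (F1 rel (x 3) (x 0) (x 2) (x 1) (x 4) +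
      (F1 rel (x 3) (x 0) (x 4) (x 1) (x 2) +
      (F1 rel (x 4) (x 0) (x 1) (x 2) (x 3) +
      (F1 rel (x 4) (x 0) (x 2) (x 1) (x 3) +
      F1 rel (x 4) (x 0) (x 3) (x 1) (x 2)))))))))))))))) ≤ 613894715537846 :=
  leaf_le (rel (x 0) (x 1)) (rel (x 1) (x 0)) (rel (x 0) (x 2)) (rel (x 2) (x 0)) (rel (x 0) (x 3)) (rel (x 3) (x 0)) (rel (x 0) (x 4)) (rel (x 4) (x 0)) (rel (x 1) (x 2)) (rel (x 2) (x 1)) (rel (x 1) (x 3)) (rel (x 3) (x 1)) (rel (x 1) (x 4)) (rel (x 4) (x 1)) (rel (x 2) (x 3)) (rel (x 3) (x 2)) (rel (x 2) (x 4)) (rel (x 4) (x 2)) (rel (x 3) (x 4)) (rel (x 4) (x 3))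
    (h _ _) (h _ _) (h _ _) (h _ _) (h _ _) (h _ _) (h _ _) (h _ _) (h _ _) (h _ _) (by
    have z0 := hz (x 1) (x 2) (x 3) (x 4)
    have z1 := hz (x 0) (x 2) (x 3) (x 4)
    have z2 := hz (x 0) (x 1) (x 3) (x 4)
    have z3 := hz (x 0) (x 1) (x 2) (x 4)
    have z4 := hz (x 0) (x 1) (x 2) (x 3)
    unfold cyc
    rw [z0, z1, z2, z3, z4])

theorem psum [Fintype V] (F : V → V → V → V → V → ℕ) (g : Fin 5 → Fin 5)
    (hg : Function.Bijective g) :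
    ∑ x : Fin 5 → V, F (x (g 0)) (x (g 1)) (x (g 2)) (x (g 3)) (x (g 4))
      = ∑ x : Fin 5 → V, F (x 0) (x 1) (x 2) (x 3) (x 4) :=
  Equiv.sum_comp (Equiv.arrowCongr (Equiv.ofBijective g hg).symm (Equiv.refl V))
    (fun x => F (x 0) (x 1) (x 2) (x 3) (x 4))

theorem total [Fintype V] (h : ∀ x y, Pr (rel x y) (rel y x)) (hz : NoC4 rel) :
    10 * ∑ x : Fin 5 → V, F3 rel (x 0) (x 1) (x 2) (x 3) (x 4)
      + 60 * ∑ x : Fin 5 → V, F1 rel (x 0) (x 1) (x 2) (x 3) (x 4)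
      ≤ 613894715537846 * Fintype.card V ^ 5 := by
  have f3_0 : ∑ x : Fin 5 → V, F3 rel (x 0) (x 1) (x 2) (x 3) (x 4) = ∑ x : Fin 5 → V, F3 rel (x 0) (x 1) (x 2) (x 3) (x 4) :=
    psum (F3 rel) ![0, 1, 2, 3, 4] (by decide)
  have f3_1 : ∑ x : Fin 5 → V, F3 rel (x 0) (x 1) (x 3) (x 2) (x 4) = ∑ x : Fin 5 → V, F3 rel (x 0) (x 1) (x 2) (x 3) (x 4) :=
    psum (F3 rel) ![0, 1, 3, 2, 4] (by decide)
  have f3_2 : ∑ x : Fin 5 → V, F3 rel (x 0) (x 1) (x 4) (x 2) (x 3) = ∑ x : Fin 5 → V, F3 rel (x 0) (x 1) (x 2) (x 3) (x 4) :=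
    psum (F3 rel) ![0, 1, 4, 2, 3] (by decide)
  have f3_3 : ∑ x : Fin 5 → V, F3 rel (x 0) (x 2) (x 3) (x 1) (x 4) = ∑ x : Fin 5 → V, F3 rel (x 0) (x 1) (x 2) (x 3) (x 4) :=
    psum (F3 rel) ![0, 2, 3, 1, 4] (by decide)
  have f3_4 : ∑ x : Fin 5 → V, F3 rel (x 0) (x 2) (x 4) (x 1) (x 3) = ∑ x : Fin 5 → V, F3 rel (x 0) (x 1) (x 2) (x 3) (x 4) :=
    psum (F3 rel) ![0, 2, 4, 1, 3] (by decide)
  have f3_5 : ∑ x : Fin 5 → V, F3 rel (x 0) (x 3) (x 4) (x 1) (x 2) = ∑ x : Fin 5 → V, F3 rel (x 0) (x 1) (x 2) (x 3) (x 4) :=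
    psum (F3 rel) ![0, 3, 4, 1, 2] (by decide)
  have f3_6 : ∑ x : Fin 5 → V, F3 rel (x 1) (x 2) (x 3) (x 0) (x 4) = ∑ x : Fin 5 → V, F3 rel (x 0) (x 1) (x 2) (x 3) (x 4) :=
    psum (F3 rel) ![1, 2, 3, 0, 4] (by decide)
  have f3_7 : ∑ x : Fin 5 → V, F3 rel (x 1) (x 2) (x 4) (x 0) (x 3) = ∑ x : Fin 5 → V, F3 rel (x 0) (x 1) (x 2) (x 3) (x 4) :=
    psum (F3 rel) ![1, 2, 4, 0, 3] (by decide)
  have f3_8 : ∑ x : Fin 5 → V, F3 rel (x 1) (x 3) (x 4) (x 0) (x 2) = ∑ x : Fin 5 → V, F3 rel (x 0) (x 1) (x 2) (x 3) (x 4) :=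
    psum (F3 rel) ![1, 3, 4, 0, 2] (by decide)
  have f3_9 : ∑ x : Fin 5 → V, F3 rel (x 2) (x 3) (x 4) (x 0) (x 1) = ∑ x : Fin 5 → V, F3 rel (x 0) (x 1) (x 2) (x 3) (x 4) :=
    psum (F3 rel) ![2, 3, 4, 0, 1] (by decide)
  have f1_0 : ∑ x : Fin 5 → V, F1 rel (x 0) (x 1) (x 2) (x 3) (x 4) = ∑ x : Fin 5 → V, F1 rel (x 0) (x 1) (x 2) (x 3) (x 4) :=
    psum (F1 rel) ![0, 1, 2, 3, 4] (by decide)
  have f1_1 : ∑ x : Fin 5 → V, F1 rel (x 0) (x 1) (x 3) (x 2) (x 4) = ∑ x : Fin 5 → V, F1 rel (x 0) (x 1) (x 2) (x 3) (x 4) :=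
    psum (F1 rel) ![0, 1, 3, 2, 4] (by decide)
  have f1_2 : ∑ x : Fin 5 → V, F1 rel (x 0) (x 1) (x 4) (x 2) (x 3) = ∑ x : Fin 5 → V, F1 rel (x 0) (x 1) (x 2) (x 3) (x 4) :=
    psum (F1 rel) ![0, 1, 4, 2, 3] (by decide)
  have f1_3 : ∑ x : Fin 5 → V, F1 rel (x 1) (x 0) (x 2) (x 3) (x 4) = ∑ x : Fin 5 → V, F1 rel (x 0) (x 1) (x 2) (x 3) (x 4) :=
    psum (F1 rel) ![1, 0, 2, 3, 4] (by decide)
  have f1_4 : ∑ x : Fin 5 → V, F1 rel (x 1) (x 0) (x 3) (x 2) (x 4) = ∑ x : Fin 5 → V, F1 rel (x 0) (x 1) (x 2) (x 3) (x 4) :=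
    psum (F1 rel) ![1, 0, 3, 2, 4] (by decide)
  have f1_5 : ∑ x : Fin 5 → V, F1 rel (x 1) (x 0) (x 4) (x 2) (x 3) = ∑ x : Fin 5 → V, F1 rel (x 0) (x 1) (x 2) (x 3) (x 4) :=
    psum (F1 rel) ![1, 0, 4, 2, 3] (by decide)
  have f1_6 : ∑ x : Fin 5 → V, F1 rel (x 2) (x 0) (x 1) (x 3) (x 4) = ∑ x : Fin 5 → V, F1 rel (x 0) (x 1) (x 2) (x 3) (x 4) :=
    psum (F1 rel) ![2, 0, 1, 3, 4] (by decide)
  have f1_7 : ∑ x : Fin 5 → V, F1 rel (x 2) (x 0) (x 3) (x 1) (x 4) = ∑ x : Fin 5 → V, F1 rel (x 0) (x 1) (x 2) (x 3) (x 4) :=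
    psum (F1 rel) ![2, 0, 3, 1, 4] (by decide)
  have f1_8 : ∑ x : Fin 5 → V, F1 rel (x 2) (x 0) (x 4) (x 1) (x 3) = ∑ x : Fin 5 → V, F1 rel (x 0) (x 1) (x 2) (x 3) (x 4) :=
    psum (F1 rel) ![2, 0, 4, 1, 3] (by decide)
  have f1_9 : ∑ x : Fin 5 → V, F1 rel (x 3) (x 0) (x 1) (x 2) (x 4) = ∑ x : Fin 5 → V, F1 rel (x 0) (x 1) (x 2) (x 3) (x 4) :=
    psum (F1 rel) ![3, 0, 1, 2, 4] (by decide)
  have f1_10 : ∑ x : Fin 5 → V, F1 rel (x 3) (x 0) (x 2) (x 1) (x 4) = ∑ x : Fin 5 → V, F1 rel (x 0) (x 1) (x 2) (x 3) (x 4) :=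
    psum (F1 rel) ![3, 0, 2, 1, 4] (by decide)
  have f1_11 : ∑ x : Fin 5 → V, F1 rel (x 3) (x 0) (x 4) (x 1) (x 2) = ∑ x : Fin 5 → V, F1 rel (x 0) (x 1) (x 2) (x 3) (x 4) :=
    psum (F1 rel) ![3, 0, 4, 1, 2] (by decide)
  have f1_12 : ∑ x : Fin 5 → V, F1 rel (x 4) (x 0) (x 1) (x 2) (x 3) = ∑ x : Fin 5 → V, F1 rel (x 0) (x 1) (x 2) (x 3) (x 4) :=
    psum (F1 rel) ![4, 0, 1, 2, 3] (by decide)
  have f1_13 : ∑ x : Fin 5 → V, F1 rel (x 4) (x 0) (x 2) (x 1) (x 3) = ∑ x : Fin 5 → V, F1 rel (x 0) (x 1) (x 2) (x 3) (x 4) :=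
    psum (F1 rel) ![4, 0, 2, 1, 3] (by decide)
  have f1_14 : ∑ x : Fin 5 → V, F1 rel (x 4) (x 0) (x 3) (x 1) (x 2) = ∑ x : Fin 5 → V, F1 rel (x 0) (x 1) (x 2) (x 3) (x 4) :=
    psum (F1 rel) ![4, 0, 3, 1, 2] (by decide)
  have key := Finset.sum_le_sum (s := Finset.univ) (fun x _ => pointwise rel h hz x)
  simp only [Finset.sum_add_distrib, ← Finset.mul_sum, Finset.sum_const, Finset.card_univ,
    Fintype.card_fun, Fintype.card_fin, smul_eq_mul] at key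
  rw [f3_0, f3_1, f3_2, f3_3, f3_4, f3_5, f3_6, f3_7, f3_8, f3_9, f1_0, f1_1, f1_2, f1_3, f1_4, f1_5, f1_6, f1_7, f1_8, f1_9, f1_10, f1_11, f1_12, f1_13, f1_14] at key
  linarith

end Pool.Agent.Helper533.Fdf
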